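import Pool.Agent.H20.SM.TP

set_option autoImplicit false

open NumberField NumberField.InfinitePlace Complex Filter Topology

namespace Pool.Agent.H5.SM

open Pool.Agent.H20.SM
open Pool.Agent.H30.BV (cv DS)

theorem tlf_term_re (g : ℕ → ℝ) (y : ℝ) (n : ℕ) :
    (LSeries.term (fun n => (g n : ℂ)) (y : ℂ) n).re = if n = 0 then 0 else g n / (n : ℝ) ^ y := by
  by_cases hn : n = 0
  · simp [hn]
  · rw [LSeries.term_of_ne_zero hn, if_neg hn]
    have h1 : ((n : ℕ) : ℂ) ^ (y : ℂ) = (((n : ℝ) ^ y : ℝ) : ℂ) := by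
      rw [Complex.ofReal_cpow (Nat.cast_nonneg n)]
      simp
    rw [h1, ← Complex.ofReal_div, Complex.ofReal_re]

theorem tlf_norm_le (f : ℕ → ℂ) (g : ℕ → ℝ) (s : ℂ) (y : ℝ) (hy : y ≤ s.re)
    (hg : LSeriesSummable (fun n => (g n : ℂ)) (y : ℂ)) (h : ∀ n, ‖f n‖ ≤ g n) :
    ‖LSeries f s‖ ≤ (LSeries (fun n => (g n : ℂ)) (y : ℂ)).re := by
  have h1 : HasSum (fun n => (LSeries.term (fun n => (g n : ℂ)) (y : ℂ) n).re)
      (LSeries (fun n => (g n : ℂ)) (y : ℂ)).re := Complex.hasSum_re hg.hasSum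
  refine tsum_of_norm_bounded h1 fun n => ?_
  rw [tlf_term_re, LSeries.norm_term_eq]
  by_cases hn : n = 0
  · simp [hn]
  · rw [if_neg hn, if_neg hn]
    have hn1 : (1 : ℝ) ≤ n := by exact_mod_cast Nat.one_le_iff_ne_zero.2 hn
    have h2 : (n : ℝ) ^ y ≤ (n : ℝ) ^ s.re := Real.rpow_le_rpow_of_exponent_le hn1 hy
    have h3 : 0 < (n : ℝ) ^ y := Real.rpow_pos_of_pos (by linarith) _
    have h4 : 0 ≤ g n := le_trans (norm_nonneg _) (h n)
    exact div_le_div₀ h4 (h n) h3 h2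

theorem tlf_anti (u v P R : ℝ → ℂ)
    (hu : ∀ x, 1 < x → HasDerivAt u (-(u x * P x)) x)
    (hv : ∀ x, 1 < x → HasDerivAt v (-(v x * R x)) x)
    (hPR : ∀ x, 1 < x → ‖P x‖ ≤ (R x).re)
    (hlu : Tendsto u atTop (𝓝 1)) (hlv : Tendsto v atTop (𝓝 1)) (x : ℝ) (hx : 1 < x) :
    1 ≤ ‖u x‖ ^ 2 * ‖v x‖ ^ 2 := by
  have key : ∀ (w Q : ℝ → ℂ) (y : ℝ), HasDerivAt w (-(w y * Q y)) y →
      HasDerivAt (fun z => ‖w z‖ ^ 2) (-2 * ‖w y‖ ^ 2 * (Q y).re) y := by
    intro w Q y hw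
    have h1 := hw.norm_sq
    have h2 : 2 * inner ℝ (w y) (-(w y * Q y)) = -2 * ‖w y‖ ^ 2 * (Q y).re := by
      rw [Complex.inner, ← Complex.normSq_eq_norm_sq, Complex.normSq_apply]
      simp only [Complex.mul_re, Complex.neg_re, Complex.neg_im, Complex.mul_im, Complex.conj_re,
        Complex.conj_im]
      ring
    rw [h2] at h1
    exact h1
  have hd : ∀ y, 1 < y → HasDerivAt (fun z => ‖u z‖ ^ 2 * ‖v z‖ ^ 2)
      (-2 * ‖u y‖ ^ 2 * (P y).re * ‖v y‖ ^ 2 + ‖u y‖ ^ 2 * (-2 * ‖v y‖ ^ 2 * (R y).re)) y :=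
    fun y hy => (key u P y (hu y hy)).mul (key v R y (hv y hy))
  have hanti : AntitoneOn (fun z => ‖u z‖ ^ 2 * ‖v z‖ ^ 2) (Set.Ioi 1) := by
    refine antitoneOn_of_deriv_nonpos (convex_Ioi 1)
      (fun y hy => (hd y hy).continuousAt.continuousWithinAt) (fun y hy => ?_) (fun y hy => ?_)
    · rw [interior_Ioi] at hy
      exact (hd y hy).differentiableAt.differentiableWithinAt
    · rw [interior_Ioi] at hy
      rw [(hd y hy).deriv]
      have h1 := hPR y hy
      have h2 : -(‖P y‖) ≤ (P y).re := by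
        have := Complex.abs_re_le_norm (P y)
        exact (abs_le.1 this).1
      have h3 : 0 ≤ ‖u y‖ ^ 2 * ‖v y‖ ^ 2 := by positivity
      have h4 : 0 ≤ (P y).re + (R y).re := by linarith
      nlinarith [mul_nonneg h3 h4]
  have hlim : Tendsto (fun z => ‖u z‖ ^ 2 * ‖v z‖ ^ 2) atTop (𝓝 1) := by
    have h1 := (hlu.norm.pow 2).mul (hlv.norm.pow 2)
    simpa using h1
  refine le_of_tendsto hlim ?_
  filter_upwards [eventually_ge_atTop x] with z hz
  exact hanti hx (lt_of_lt_of_le hx hz) hz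

theorem tlf_tendsto (f : ℕ → ℂ) (hf : ∀ s : ℂ, 1 < s.re → LSeriesSummable f s) (t : ℝ) :
    Tendsto (fun x : ℝ => LSeries f ((x : ℂ) + t * I)) atTop (𝓝 (f 1)) := by
  have hterm : ∀ (x : ℝ) (n : ℕ), LSeries.term f ((x : ℂ) + t * I) n =
      LSeries.term (fun n => f n / (n : ℂ) ^ ((t : ℂ) * I)) (x : ℂ) n := by
    intro x n
    by_cases hn : n = 0
    · simp [hn]
    · rw [LSeries.term_of_ne_zero hn, LSeries.term_of_ne_zero hn,
        Complex.cpow_add _ _ (Nat.cast_ne_zero.2 hn), div_div, mul_comm]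
  have hL : ∀ x : ℝ, LSeries f ((x : ℂ) + t * I) =
      LSeries (fun n => f n / (n : ℂ) ^ ((t : ℂ) * I)) (x : ℂ) :=
    fun x => tsum_congr (hterm x)
  have hs : ∀ y : ℝ, 1 < y → LSeriesSummable (fun n => f n / (n : ℂ) ^ ((t : ℂ) * I)) (y : ℂ) := by
    intro y hy
    have h1 : LSeriesSummable f ((y : ℂ) + t * I) := hf _ (by simpa using hy)
    exact h1.congr fun n => hterm y n
  have ha : LSeries.abscissaOfAbsConv (fun n => f n / (n : ℂ) ^ ((t : ℂ) * I)) < ⊤ := by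
    refine lt_of_le_of_lt (LSeries.abscissaOfAbsConv_le_of_forall_lt_LSeriesSummable hs) ?_
    exact EReal.coe_lt_top 1
  have h2 := LSeries.tendsto_atTop ha
  simp only [Nat.cast_one, Complex.one_cpow, div_one] at h2
  exact h2.congr fun x => (hL x).symm

theorem tlf_deriv (f : ℕ → ℂ) (hf : ∀ s : ℂ, 1 < s.re → LSeriesSummable f s) (t x : ℝ)
    (hx : 1 < x) :
    HasDerivAt (fun y : ℝ => LSeries f ((y : ℂ) + t * I)) (-DS f 1 ((x : ℂ) + t * I)) x := by
  have ha : LSeries.abscissaOfAbsConv f < (((x : ℂ) + t * I).re : ℝ) := by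
    refine lt_of_le_of_lt (LSeries.abscissaOfAbsConv_le_of_forall_lt_LSeriesSummable
      (x := 1) fun y hy => hf _ (by simpa using hy)) ?_
    have h1 : ((x : ℂ) + t * I).re = x := by simp
    rw [h1]
    exact_mod_cast hx
  have h1 := (LSeries_hasDerivAt ha).comp_add_const (x : ℂ) (t * I)
  have h2 := h1.comp_ofReal
  have h3 : LSeries (LSeries.logMul f) ((x : ℂ) + t * I) = DS f 1 ((x : ℂ) + t * I) := by
    unfold DS
    refine tsum_congr fun n => ?_
    by_cases hn : n = 0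
    · simp [hn]
    · rw [LSeries.term_of_ne_zero hn, LSeries.term_of_ne_zero hn, LSeries.logMul, pow_one,
        Complex.natCast_log, mul_comm]
  rw [h3] at h2
  exact h2

theorem tlf_DS0 (f : ℕ → ℂ) (s : ℂ) : DS f 0 s = LSeries f s := by
  unfold DS
  simp

theorem tlf_upper (F : Type) [Field F] [NumberField F]
    (ha : ∀ s : ℂ, 1 < s.re → LSeriesSummable (fun n => (aF F n : ℂ)) s) :
    ∃ C : ℝ, 0 < C ∧ ∀ x : ℝ, 1 < x → x ≤ 3 →
      ‖LSeries (fun n => (aF F n : ℂ)) (x : ℂ)‖ ≤ C / (x - 1) := by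
  have hz : ∀ s : ℂ, dedekindZeta F s = LSeries (fun n => (aF F n : ℂ)) s := by
    intro s
    unfold dedekindZeta aF
    refine tsum_congr fun n => ?_
    by_cases hn : n = 0
    · simp [hn]
    · rw [LSeries.term_of_ne_zero hn, LSeries.term_of_ne_zero hn]
      have h1 : (Nat.card {I : Ideal (𝓞 F) // Ideal.absNorm I = n} : ℂ) =
          ((({I : Ideal (𝓞 F) | Ideal.absNorm I = n}.ncard : ℕ) : ℝ) : ℂ) := by
        rw [← Nat.card_coe_set_eq]
        push_cast
        rfl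
      rw [h1]
  have haF : ∀ n, 0 ≤ aF F n := fun n => by unfold aF; positivity
  have hlim := (tendsto_sub_one_mul_dedekindZeta_nhdsGT F).norm
  have h1 : ∀ᶠ x : ℝ in 𝓝[>] (1 : ℝ), ‖((x : ℂ) - 1) * dedekindZeta F x‖ <
      ‖((dedekindZeta_residue F : ℝ) : ℂ)‖ + 1 :=
    hlim.eventually_lt_const (by linarith)
  obtain ⟨δ, hδ, hδ2⟩ := (mem_nhdsGT_iff_exists_Ioo_subset).1 h1
  rw [Set.mem_Ioi] at hδ
  set M := ‖((dedekindZeta_residue F : ℝ) : ℂ)‖ + 1 with hM
  have hM0 : 0 < M := by positivity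
  set y : ℝ := (1 + δ) / 2 with hy
  have hy1 : 1 < y := by rw [hy]; linarith
  have hy2 : y < δ := by rw [hy]; linarith
  set B := ‖LSeries (fun n => (aF F n : ℂ)) (y : ℂ)‖ with hB
  have hB0 : 0 ≤ B := norm_nonneg _
  refine ⟨M + 2 * B, by positivity, fun x hx hx3 => ?_⟩
  rw [le_div_iff₀ (by linarith)]
  rcases lt_or_ge x y with h | h
  · have h2 : ‖((x : ℂ) - 1) * dedekindZeta F x‖ < M := hδ2 ⟨hx, lt_trans h hy2⟩
    rw [norm_mul, hz] at h2
    have h3 : ‖(x : ℂ) - 1‖ = x - 1 := by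
      rw [← Complex.ofReal_one, ← Complex.ofReal_sub, Complex.norm_real, Real.norm_eq_abs,
        abs_of_pos (by linarith)]
    rw [h3] at h2
    rw [mul_comm]
    linarith
  · have h2 : ‖LSeries (fun n => (aF F n : ℂ)) (x : ℂ)‖ ≤ B := by
      refine le_trans (tlf_norm_le _ (aF F) (x : ℂ) y (by simpa using h) (ha _ (by simpa using hy1))
        fun n => ?_) ?_
      · rw [Complex.norm_real, Real.norm_eq_abs, abs_of_nonneg (haF n)]
      · exact le_trans (le_abs_self _) (Complex.abs_re_le_norm _)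
    have h3 : ‖LSeries (fun n => (aF F n : ℂ)) (x : ℂ)‖ * (x - 1) ≤ B * 2 :=
      mul_le_mul h2 (by linarith) (by linarith) hB0
    linarith

theorem tlf_one (F : Type) [Field F] [NumberField F] : aF F 1 = 1 := by
  unfold aF
  have h1 : {I : Ideal (𝓞 F) | Ideal.absNorm I = 1} = {⊤} := by
    ext I
    simp [Ideal.absNorm_eq_one_iff]
  rw [h1, Set.ncard_singleton]
  norm_num

theorem pf_TLF (hCFF : T_CFF) : T_TLF := by
  intro F _ _ _
  obtain ⟨hg, ha, hx⟩ := hCFF F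
  obtain ⟨C, hC, hCb⟩ := tlf_upper F ha
  have haF : ∀ n, 0 ≤ aF F n := fun n => by unfold aF; positivity
  -- the trivial character modulo one
  have e1 : ac F (1 : DirichletCharacter ℂ 1) = fun n => (aF F n : ℂ) := by
    funext n
    unfold ac cv
    rw [MulChar.one_apply (isUnit_of_subsingleton _), mul_one]
  have e2 : (fun n => (ArithmeticFunction.vonMangoldt n : ℂ) * gc F (1 : DirichletCharacter ℂ 1) n) =
      fun n => ((ArithmeticFunction.vonMangoldt n * gF F n : ℝ) : ℂ) := by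
    funext n
    unfold gc cv
    rw [MulChar.one_apply (isUnit_of_subsingleton _), mul_one]
    push_cast
    rfl
  have hΛ : ∀ s : ℂ, 1 < s.re → LSeriesSummable
      (fun n => ((ArithmeticFunction.vonMangoldt n * gF F n : ℝ) : ℂ)) s := by
    intro s hs
    have h1 := ((hx 1 1 s le_rfl hs).1 0).2
    have h2 : (fun n => (ArithmeticFunction.vonMangoldt n : ℂ) *
        gc F (1 : DirichletCharacter ℂ 1) n * ((Real.log n ^ 0 : ℝ) : ℂ)) =
        fun n => ((ArithmeticFunction.vonMangoldt n * gF F n : ℝ) : ℂ) := by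
      rw [← e2]
      funext n
      simp
    rw [h2] at h1
    exact h1
  have hv : ∀ x : ℝ, 1 < x → HasDerivAt (fun y : ℝ => LSeries (fun n => (aF F n : ℂ)) (y : ℂ))
      (-(LSeries (fun n => (aF F n : ℂ)) (x : ℂ) *
        LSeries (fun n => ((ArithmeticFunction.vonMangoldt n * gF F n : ℝ) : ℂ)) (x : ℂ))) x := by
    intro x hx1
    have h1 := tlf_deriv _ ha 0 x hx1
    have h2 := (hx 1 1 (x : ℂ) le_rfl (by simpa using hx1)).2.2
    rw [e1, e2, tlf_DS0, tlf_DS0] at h2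
    simp only [Complex.ofReal_zero, zero_mul, add_zero] at h1
    rw [h2] at h1
    exact h1
  have hlv : Tendsto (fun y : ℝ => LSeries (fun n => (aF F n : ℂ)) (y : ℂ)) atTop (𝓝 1) := by
    have h1 := tlf_tendsto _ ha 0
    simp only [Complex.ofReal_zero, zero_mul, add_zero, tlf_one, Complex.ofReal_one] at h1
    exact h1
  refine ⟨1 / C, by positivity, fun r χ s hr hs hs3 => ?_⟩
  have hnf : ∀ n, ‖ac F χ n‖ ≤ aF F n := by
    intro n
    unfold ac cv
    rw [norm_mul, Complex.norm_real, Real.norm_eq_abs, abs_of_nonneg (haF n)]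
    exact mul_le_of_le_one_right (haF n) (χ.norm_le_one _)
  have hng : ∀ n, ‖(ArithmeticFunction.vonMangoldt n : ℂ) * gc F χ n‖ ≤
      ArithmeticFunction.vonMangoldt n * gF F n := by
    intro n
    unfold gc cv
    rw [norm_mul, norm_mul, Complex.norm_real, Complex.norm_real, Real.norm_eq_abs,
      Real.norm_eq_abs, abs_of_nonneg ArithmeticFunction.vonMangoldt_nonneg,
      abs_of_nonneg (hg n).1]
    exact mul_le_mul_of_nonneg_left (mul_le_of_le_one_right (hg n).1 (χ.norm_le_one _))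
      ArithmeticFunction.vonMangoldt_nonneg
  have hac : ∀ w : ℂ, 1 < w.re → LSeriesSummable (ac F χ) w := by
    intro w hw
    have h1 := ((hx r χ w hr hw).1 0).1
    have h2 : (fun n => ac F χ n * ((Real.log n ^ 0 : ℝ) : ℂ)) = ac F χ := by
      funext n
      simp
    rw [h2] at h1
    exact h1
  have hu : ∀ x : ℝ, 1 < x → HasDerivAt (fun y : ℝ => LSeries (ac F χ) ((y : ℂ) + s.im * I))
      (-(LSeries (ac F χ) ((x : ℂ) + s.im * I) * LSeries
        (fun n => (ArithmeticFunction.vonMangoldt n : ℂ) * gc F χ n) ((x : ℂ) + s.im * I))) x := by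
    intro x hx1
    have h1 := tlf_deriv _ hac s.im x hx1
    have h2 := (hx r χ ((x : ℂ) + s.im * I) hr (by simpa using hx1)).2.2
    rw [tlf_DS0, tlf_DS0] at h2
    rw [h2] at h1
    exact h1
  have hlu : Tendsto (fun y : ℝ => LSeries (ac F χ) ((y : ℂ) + s.im * I)) atTop (𝓝 1) := by
    have h1 := tlf_tendsto _ hac s.im
    have h2 : ac F χ 1 = 1 := by
      unfold ac cv
      rw [tlf_one, Nat.cast_one, map_one, Complex.ofReal_one, mul_one]
    rw [h2] at h1
    exact h1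
  have hs1 : ((s.re : ℂ) + s.im * I) = s := Complex.re_add_im s
  have hmain := tlf_anti _ _ _ _ hu hv (fun x hx1 => tlf_norm_le _ _ _ x (by simp)
    (hΛ _ (by simpa using hx1)) hng) hlu hlv s.re hs
  simp only [hs1] at hmain
  have hub := hCb s.re hs hs3
  have hx0 : 0 < s.re - 1 := by linarith
  set U := ‖LSeries (ac F χ) s‖ with hU
  set V := ‖LSeries (fun n => (aF F n : ℂ)) (s.re : ℂ)‖ with hV
  have hU0 : 0 ≤ U := norm_nonneg _
  have hV0 : 0 ≤ V := norm_nonneg _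
  have h1 : 1 ≤ U * V := by
    have h2 : 1 ≤ (U * V) ^ 2 := by rw [mul_pow]; exact hmain
    nlinarith [mul_nonneg hU0 hV0]
  have e3 : 1 / C * (s.re - 1) = (s.re - 1) / C := by ring
  have e4 : 1 / ((s.re - 1) / C) = C / (s.re - 1) := by rw [one_div_div]
  rw [tlf_DS0, tlf_DS0, e3, e4]
  refine ⟨?_, ?_⟩
  · rw [div_le_iff₀ hC]
    have h2 : 1 ≤ U * (C / (s.re - 1)) := le_trans h1 (mul_le_mul_of_nonneg_left hub hU0)
    rw [← mul_div_assoc, le_div_iff₀ hx0, one_mul] at h2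
    exact h2
  · refine le_trans (tlf_norm_le _ (aF F) s s.re le_rfl (ha _ (by simpa using hs))
      fun n => ?_) (le_trans ?_ hub)
    · rw [Complex.norm_real, Real.norm_eq_abs, abs_of_nonneg (haF n)]
    · exact le_trans (le_abs_self _) (Complex.abs_re_le_norm _)

end Pool.Agent.H5.SM
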